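import Mathlib
import Pool.Agent.Lead.MatroidChiDefs
import Pool.Agent.Lead.BogartEx

set_option autoImplicit false

namespace Pool.Agent.Results.MP_e962e1_co.NonSupersolvable

open Pool.Agent.Lead.MatroidChi

open Polynomial in
/-- There is a binary geometry `M` with 21 points, of rank 6, whose characteristic polynomial is
`(λ - 1)(λ - 2)⋯(λ - 6)`, which has no modular copoint and in particular is not supersolvable. -/
theorem result : ∃ M : Matroid (Fin 21), IsGeometry M ∧ IsBinary M ∧ rk M M.E = 6 ∧
    charPoly M = (X - C 1) * (X - C 2) * (X - C 3) * (X - C 4) * (X - C 5) * (X - C 6) ∧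
    (∀ F : Set (Fin 21), rk M F = 5 → ¬ IsModularFlat M F) ∧ ¬ IsSupersolvable M :=
  Pool.Agent.Lead.BogartEx.main

end Pool.Agent.Results.MP_e962e1_co.NonSupersolvable
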